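import Pool.Agent.H90.CNY.Stmts

/-!
# Row YCC: the last ramification group embeds into the additive group
-/

set_option autoImplicit false

namespace Pool.CND

/-- row YCC -/
theorem ycc_thm : S_YCC := by
  intro p k G _ _ _ W I C ζ θ t hp hchar hCW hWI hζ hθ
  have h1 : θ 1 = 0 := by
    have h := hθ.add 1 C.one_mem 1 C.one_mem
    rw [mul_one] at h
    exact (left_eq_add.1 h)
  have hinv : ∀ w ∈ C, θ w⁻¹ = - θ w := by
    intro w hw
    have h := hθ.add w hw w⁻¹ (C.inv_mem hw)
    rw [mul_inv_cancel, h1] at h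
    exact (neg_eq_of_add_eq_zero_right h.symm).symm
  have hinj : ∀ w ∈ C, ∀ w' ∈ C, θ w = θ w' → w = w' := by
    intro w hw w' hw' h
    have h2 : θ (w * w'⁻¹) = 0 := by
      rw [hθ.add w hw _ (C.inv_mem hw'), hinv w' hw', h, add_neg_cancel]
    exact mul_inv_eq_one.1 (hθ.inj _ (C.mul_mem hw (C.inv_mem hw')) h2)
  have hpow : ∀ w ∈ C, ∀ n : ℕ, θ (w ^ n) = n * θ w := by
    intro w hw n
    induction n with
    | zero => simp [h1]
    | succ n ih =>
      rw [pow_succ, hθ.add _ (C.pow_mem hw n) _ hw, ih]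
      push_cast
      ring
  refine ⟨?_, ?_⟩
  · have hc : ∀ w ∈ C, ∀ w' ∈ C, w * w' = w' * w := by
      intro w hw w' hw'
      refine hinj _ (C.mul_mem hw hw') _ (C.mul_mem hw' hw) ?_
      rw [hθ.add w hw w' hw', hθ.add w' hw' w hw, add_comm]
    have he : ∀ w ∈ C, w ^ p = 1 := by
      intro w hw
      refine hθ.inj _ (C.pow_mem hw p) ?_
      rw [hpow w hw, CharP.cast_eq_zero, zero_mul]
    exact ⟨he, hc⟩
  · intro g hg w hw r
    have hz1 : ζ 1 = 1 := (hζ.ker 1 I.one_mem).2 W.one_mem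
    have hzp : ∀ n : ℕ, ζ (g ^ n) = ζ g ^ n := by
      intro n
      induction n with
      | zero => simpa using hz1
      | succ n ih => rw [pow_succ, hζ.mul _ (I.pow_mem hg n) _ hg, ih, pow_succ]
    have hgr : g ^ r ∈ I := I.pow_mem hg r
    have h3 : θ (g ^ r * w * (g ^ r)⁻¹) = ζ g ^ (r * t) * θ w := by
      rw [hθ.act _ hgr w hw, hzp, pow_mul]
    have h4 : g ^ r * w = w * g ^ r ↔ g ^ r * w * (g ^ r)⁻¹ = w := by
      rw [mul_inv_eq_iff_eq_mul]
    rw [h4]
    constructor
    · intro h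
      rw [h] at h3
      by_cases hw0 : θ w = 0
      · exact Or.inl (hθ.inj w hw hw0)
      · right
        have h5 : 1 * θ w = ζ g ^ (r * t) * θ w := by rw [one_mul]; exact h3
        exact (mul_right_cancel₀ hw0 h5).symm
    · rintro (h | h)
      · rw [h]
        group
      · refine hinj _ (hθ.nrm _ hgr w hw) _ hw ?_
        rw [h3, h, one_mul]

end Pool.CND
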